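import Mathlib
import Pool.Agent.Lib.MP_50ef00_gt.Pos

/-!
P4: the algebra of the positive side.
-/

namespace Pool.Agent.Lib.MP_50ef00_gt.H72

open Pool.Agent.Lib.MP_50ef00_gt

/-! ### a unit of the group ring of a finite cyclic group of odd order -/

section Unit

variable {S : Type*} [CommRing S]

/-- the norm element -/
def nrm (τ : S) (m : ℕ) : S := ∑ j ∈ Finset.range m, τ ^ j

theorem nrm_mul {τ : S} {m : ℕ} (h : τ ^ m = 1) : nrm τ m * τ = nrm τ m := by
  have h1 : nrm τ m * (τ - 1) = 0 := by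
    unfold nrm
    rw [geom_sum_mul, h, sub_self]
  have h2 : nrm τ m * τ - nrm τ m = 0 := by rw [← h1]; ring
  exact sub_eq_zero.mp h2

theorem nrm_mul_pow {τ : S} {m : ℕ} (h : τ ^ m = 1) (j : ℕ) : nrm τ m * τ ^ j = nrm τ m := by
  induction j with
  | zero => simp
  | succ j ih => rw [pow_succ, ← mul_assoc, ih, nrm_mul h]

theorem nrm_mul_nrm {τ : S} {m : ℕ} (h : τ ^ m = 1) : nrm τ m * nrm τ m = m * nrm τ m := by
  have h2 : nrm τ m * nrm τ m = ∑ j ∈ Finset.range m, τ ^ j * nrm τ m := by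
    rw [← Finset.sum_mul]
    rfl
  have : ∀ j ∈ Finset.range m, τ ^ j * nrm τ m = nrm τ m := fun j _ => by
    rw [mul_comm, nrm_mul_pow h]
  rw [h2, Finset.sum_congr rfl this]
  simp

theorem nrm_mul_add {τ : S} {m : ℕ} (h : τ ^ m = 1) (k : ℕ) :
    nrm τ m * (1 + τ) ^ k = (2 : S) ^ k * nrm τ m := by
  induction k with
  | zero => simp
  | succ k ih =>
    have := nrm_mul h
    calc nrm τ m * (1 + τ) ^ (k + 1) = (nrm τ m * (1 + τ) ^ k) * (1 + τ) := by ring
      _ = (2 : S) ^ k * (nrm τ m + nrm τ m * τ) := by rw [ih]; ring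
      _ = (2 : S) ^ (k + 1) * nrm τ m := by rw [this]; ring

theorem nrm_mul_q {τ : S} {m : ℕ} (h : τ ^ m = 1) (l : ℕ) :
    nrm τ m * (∑ j ∈ Finset.range (l + 1), (τ ^ 2) ^ j) = (l + 1 : S) * nrm τ m := by
  rw [Finset.mul_sum]
  have : ∀ j ∈ Finset.range (l + 1), nrm τ m * (τ ^ 2) ^ j = nrm τ m := fun j _ => by
    rw [← pow_mul, nrm_mul_pow h]
  rw [Finset.sum_congr rfl this]
  simp

theorem nrm_mul_q_pow {τ : S} {m : ℕ} (h : τ ^ m = 1) (l k : ℕ) :
    nrm τ m * (∑ j ∈ Finset.range (l + 1), (τ ^ 2) ^ j) ^ k = (l + 1 : S) ^ k * nrm τ m := by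
  induction k with
  | zero => simp
  | succ k ih =>
    rw [pow_succ, ← mul_assoc, ih, mul_assoc, nrm_mul_q h]
    ring

theorem add_mul_q {τ : S} (l : ℕ) :
    (1 + τ) * (∑ j ∈ Finset.range (l + 1), (τ ^ 2) ^ j) = ∑ j ∈ Finset.range (2 * l + 2), τ ^ j := by
  induction l with
  | zero => simp [Finset.sum_range_succ]
  | succ l ih =>
    rw [Finset.sum_range_succ, mul_add, ih]
    rw [show 2 * (l + 1) + 2 = 2 * l + 2 + 1 + 1 by ring, Finset.sum_range_succ _ (2 * l + 2 + 1),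
      Finset.sum_range_succ _ (2 * l + 2)]
    ring

theorem one_add_nrm_pow {τ : S} {m : ℕ} (h : τ ^ m = 1) (k : ℕ) :
    ∃ e : ℤ, e * m = ((m : ℤ) + 1) ^ k - 1 ∧ (1 + nrm τ m) ^ k = 1 + (e : S) * nrm τ m := by
  induction k with
  | zero => exact ⟨0, by simp, by simp⟩
  | succ k ih =>
    obtain ⟨e, he, h1⟩ := ih
    refine ⟨e * (m + 1) + 1, ?_, ?_⟩
    · rw [pow_succ]
      linear_combination (m + 1) * he
    · rw [pow_succ, h1]
      have := nrm_mul_nrm h
      push_cast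
      linear_combination (e : S) * this

/-- the unit -/
theorem unit_lemma (τ : S) (m k : ℕ) (hm : Odd m) (hτ : τ ^ m = 1) (c : ℤ)
    (hc : 2 ^ k + c * m = 1) :
    ∃ u : S, ((1 + τ) ^ k + (c : S) * nrm τ m) * u = 1 := by
  obtain ⟨l, hl⟩ := hm
  set q : S := ∑ j ∈ Finset.range (l + 1), (τ ^ 2) ^ j with hq
  have hq1 : (1 + τ) * q = 1 + nrm τ m := by
    rw [hq, add_mul_q, show 2 * l + 2 = m + 1 by omega, Finset.sum_range_succ, hτ]
    unfold nrm
    ring
  obtain ⟨e, he, h1⟩ := one_add_nrm_pow hτ k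
  -- `(l+1)^k = 1 mod m`
  have hd : ∃ d : ℤ, ((l : ℤ) + 1) ^ k + d * m = 1 := by
    have h2 : ((2 : ℤ) * (l + 1)) ^ k = (m + 1) ^ k := by
      congr 1
      rw [hl]
      push_cast
      ring
    have h3 : (2 : ℤ) ^ k * ((l : ℤ) + 1) ^ k = 1 + e * m := by
      rw [← mul_pow, h2]
      linear_combination -he
    refine ⟨-e - c * ((l : ℤ) + 1) ^ k, ?_⟩
    linear_combination h3 - (((l : ℤ) + 1) ^ k) * hc
  obtain ⟨d, hd⟩ := hd
  refine ⟨q ^ k + (d : S) * nrm τ m, ?_⟩
  have e1 := nrm_mul_add hτ k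
  have e2 := nrm_mul_q_pow hτ l k
  rw [← hq] at e2
  have e3 := nrm_mul_nrm hτ
  have e4 : (1 + τ) ^ k * q ^ k = 1 + (e : S) * nrm τ m := by rw [← mul_pow, hq1, h1]
  -- the coefficient of the norm vanishes
  have hm0 : (m : ℤ) ≠ 0 := by rw [hl]; push_cast; positivity
  have hcoef : e + d * 2 ^ k + c * ((l : ℤ) + 1) ^ k + c * d * m = 0 := by
    apply mul_left_cancel₀ hm0
    have h2 : (2 : ℤ) ^ k * ((l : ℤ) + 1) ^ k = (m + 1) ^ k := by
      rw [← mul_pow]
      congr 1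
      rw [hl]
      push_cast
      ring
    have hd' : d * m = 1 - ((l : ℤ) + 1) ^ k := by linear_combination hd
    have hc' : c * m = 1 - 2 ^ k := by linear_combination hc
    calc (m : ℤ) * (e + d * 2 ^ k + c * ((l : ℤ) + 1) ^ k + c * d * m)
        = e * m + (d * m) * 2 ^ k + (c * m) * ((l : ℤ) + 1) ^ k + (c * m) * (d * m) := by ring
      _ = m * 0 := by rw [he, hd', hc']; linear_combination -h2
  have hcoef' : (e : S) + (d : S) * 2 ^ k + (c : S) * ((l : S) + 1) ^ k + (c : S) * d * m = 0 := by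
    have := congrArg (Int.cast : ℤ → S) hcoef
    push_cast at this
    exact this
  linear_combination e4 + (d : S) * e1 + (c : S) * e2 + (c : S) * (d : S) * e3
    + nrm τ m * hcoef'

/-- the unit, for endomorphisms of an abelian group -/
theorem unit_end {M : Type*} [AddCommGroup M] (τ : Module.End ℤ M) (m k : ℕ) (hm : Odd m)
    (hτ : τ ^ m = 1) (c : ℤ) (hc : 2 ^ k + c * m = 1) :
    ∃ u : Module.End ℤ M,
      ((1 + τ) ^ k + c • ∑ j ∈ Finset.range m, τ ^ j) * u = 1 ∧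
      u * ((1 + τ) ^ k + c • ∑ j ∈ Finset.range m, τ ^ j) = 1 := by
  open Polynomial in
  let I : Ideal ℤ[X] := Ideal.span {X ^ m - 1}
  let S := ℤ[X] ⧸ I
  let t : S := Ideal.Quotient.mk I X
  have ht : t ^ m = 1 := by
    have : Ideal.Quotient.mk I (X ^ m - 1) = 0 :=
      Ideal.Quotient.eq_zero_iff_mem.mpr (Ideal.subset_span rfl)
    rw [map_sub, map_pow, map_one] at this
    exact sub_eq_zero.mp this
  obtain ⟨u, hu⟩ := unit_lemma t m k hm ht c hc
  obtain ⟨v, rfl⟩ := Ideal.Quotient.mk_surjective u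
  set U : ℤ[X] := (1 + X) ^ k + (c : ℤ[X]) * ∑ j ∈ Finset.range m, X ^ j with hU
  have h1 : Ideal.Quotient.mk I (U * v - 1) = 0 := by
    rw [map_sub, map_mul, map_one, sub_eq_zero, ← hu]
    congr 1
    rw [hU]
    simp only [map_add, map_mul, map_pow, map_one, map_intCast, map_sum, nrm]
    rfl
  rw [Ideal.Quotient.eq_zero_iff_mem, Ideal.mem_span_singleton] at h1
  obtain ⟨r, hr⟩ := h1
  have h2 : aeval τ U = (1 + τ) ^ k + c • ∑ j ∈ Finset.range m, τ ^ j := by
    rw [hU]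
    simp only [map_add, map_mul, map_pow, map_one, map_intCast, map_sum, aeval_X]
    rw [zsmul_eq_mul]
  have h3 : aeval τ (U * v) = 1 := by
    have : U * v = 1 + (X ^ m - 1) * r := by rw [← hr]; ring
    rw [this]
    simp [hτ]
  refine ⟨aeval τ v, ?_, ?_⟩
  · rw [← h2, ← map_mul, h3]
  · rw [← h2, ← map_mul, mul_comm, h3]

end Unit

/-! ### cat¹-groups -/

section Cat

variable {P E : Type} [Group P] [Group E] (C : Cat1 P E)

/-- the second homotopy group -/
def Ker2 : Subgroup E := C.d0.ker ⊓ C.d1.ker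

theorem mem_Ker2 {h : E} : h ∈ Ker2 C ↔ C.d0 h = 1 ∧ C.d1 h = 1 := Iff.rfl

/-- elements of `Ker2` commute with the kernel of the source -/
theorem Ker2_comm {h y : E} (hh : h ∈ Ker2 C) (hy : C.d1 y = 1) : h * y = y * h :=
  (C.comm y h hy hh.1).symm

instance : CommGroup (Ker2 C) :=
  { (inferInstance : Group (Ker2 C)) with
    mul_comm := fun a b => Subtype.ext (Ker2_comm C a.2 b.2.2) }

/-- conjugation by an element, on `Ker2` -/
def kconj (T : E) : Ker2 C →* Ker2 C where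
  toFun h := ⟨T * h * T⁻¹, by
    have := h.2
    rw [mem_Ker2] at this ⊢
    simp [this.1, this.2]⟩
  map_one' := by ext; simp
  map_mul' a b := by ext; simp

/-- conjugation, additively -/
def ktau (T : E) : Module.End ℤ (Additive (Ker2 C)) :=
  (MonoidHom.toAdditive (kconj C T)).toIntLinearMap

/-- the inclusion -/
def kap (h : Additive (Ker2 C)) : E := (Additive.toMul h : Ker2 C)

theorem kap_mem (h : Additive (Ker2 C)) : kap C h ∈ Ker2 C := (Additive.toMul h).2

theorem kap_add (g h : Additive (Ker2 C)) : kap C (g + h) = kap C g * kap C h := rfl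

theorem kap_zero : kap C 0 = 1 := rfl

theorem kap_zsmul (c : ℤ) (h : Additive (Ker2 C)) : kap C (c • h) = kap C h ^ c := rfl

theorem kap_tau (T : E) (h : Additive (Ker2 C)) : kap C (ktau C T h) = T * kap C h * T⁻¹ := rfl

theorem kap_inj {g h : Additive (Ker2 C)} (e : kap C g = kap C h) : g = h :=
  Additive.toMul.injective (Subtype.ext e)

theorem exists_kap {h : E} (hh : h ∈ Ker2 C) : ∃ g, kap C g = h := ⟨Additive.ofMul ⟨h, hh⟩, rfl⟩

theorem ktau_pow (T : E) (j : ℕ) (h : Additive (Ker2 C)) :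
    kap C ((ktau C T ^ j) h) = T ^ j * kap C h * (T ^ j)⁻¹ := by
  induction j with
  | zero => simp
  | succ j ih =>
    rw [pow_succ', Module.End.mul_apply, kap_tau, ih, pow_succ']
    group

theorem ktau_pow_eq (T : E) (m : ℕ) (h : T ^ m = 1) : ktau C T ^ m = 1 := by
  apply LinearMap.ext
  intro g
  apply kap_inj
  rw [ktau_pow, h]
  simp

/-- the iterated products -/
def aseq (T x : E) : ℕ → E
  | 0 => x
  | i + 1 => aseq T x i * (T * aseq T x i * T⁻¹)

theorem map_aseq {F : Type} [Group F] (φ : E →* F) (T x : E) (i : ℕ) :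
    φ (aseq T x i) = aseq (φ T) (φ x) i := by
  induction i with
  | zero => rfl
  | succ i ih => simp only [aseq, map_mul, map_inv, ih]

theorem aseq_vk (t w : P) (i : ℕ) : aseq t (H96.vk t w 0) i = H96.vk t w i := by
  induction i with
  | zero => rfl
  | succ i ih => simp only [aseq, H96.vk] at ih ⊢; rw [ih]

theorem aseq_one (T : E) (i : ℕ) : aseq T 1 i = 1 := by
  induction i with
  | zero => rfl
  | succ i ih => simp [aseq, ih]

/-- the corrected product -/
def acor (T x : E) (m k : ℕ) (c : ℤ) : E := aseq T x k * ((x * T) ^ m) ^ c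

theorem map_acor {F : Type} [Group F] (φ : E →* F) (T x : E) (m k : ℕ) (c : ℤ) :
    φ (acor T x m k c) = acor (φ T) (φ x) m k c := by
  simp only [acor, map_mul, map_zpow, map_pow, map_aseq]

theorem aseq_kap (T x : E) (hx : C.d1 x = 1) (g : Additive (Ker2 C)) (i : ℕ) :
    aseq T (kap C g * x) i = kap C (((1 + ktau C T) ^ i) g) * aseq T x i := by
  have h1 : ∀ i, C.d1 (aseq T x i) = 1 := fun i => by
    induction i with
    | zero => exact hx
    | succ i ih => simp [aseq, ih]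
  induction i with
  | zero => simp [aseq]
  | succ i ih =>
    set u := ((1 + ktau C T) ^ i) g with hu
    have e1 : ((1 + ktau C T) ^ (i + 1)) g = u + ktau C T u := by
      rw [pow_succ', Module.End.mul_apply, ← hu]
      simp
    rw [e1, kap_add, kap_tau, aseq, ih, aseq]
    have e2 := Ker2_comm C (kap_mem C (ktau C T u)) (h1 i)
    rw [kap_tau] at e2
    calc kap C u * aseq T x i * (T * (kap C u * aseq T x i) * T⁻¹)
        = kap C u * (aseq T x i * (T * kap C u * T⁻¹)) * (T * aseq T x i * T⁻¹) := by group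
      _ = kap C u * (T * kap C u * T⁻¹ * aseq T x i) * (T * aseq T x i * T⁻¹) := by rw [e2]
      _ = _ := by group

theorem pow_kap (T x : E) (hx : C.d1 x = 1) (g : Additive (Ker2 C)) (i : ℕ) :
    (kap C g * x * T) ^ i = kap C ((∑ j ∈ Finset.range i, ktau C T ^ j) g) * (x * T) ^ i := by
  induction i with
  | zero => simp [kap_zero]
  | succ i ih =>
    set u := (∑ j ∈ Finset.range i, ktau C T ^ j) g with hu
    have e1 : (∑ j ∈ Finset.range (i + 1), ktau C T ^ j) g = g + ktau C T u := by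
      rw [Finset.sum_range_succ', pow_zero]
      simp only [pow_succ', ← Finset.mul_sum]
      rw [LinearMap.add_apply, Module.End.mul_apply, ← hu, add_comm]
      simp
    rw [e1, kap_add, kap_tau, pow_succ', ih, pow_succ' (x * T)]
    have e2 := Ker2_comm C (kap_mem C (ktau C T u)) hx
    rw [kap_tau] at e2
    calc kap C g * x * T * (kap C u * (x * T) ^ i)
        = kap C g * (x * (T * kap C u * T⁻¹)) * T * (x * T) ^ i := by group
      _ = kap C g * (T * kap C u * T⁻¹ * x) * T * (x * T) ^ i := by rw [e2]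
      _ = _ := by simp only [mul_assoc]

variable {C}

/-- the power is in the second homotopy group -/
theorem pow_mem {t w : P} {x : E} {m : ℕ} (ht : t ^ m = 1) (h1 : C.d1 x = 1)
    (h0 : C.d0 x = H96.vk t w 0) : (x * C.s t) ^ m ∈ Ker2 C := by
  rw [mem_Ker2]
  constructor
  · rw [map_pow, map_mul, h0, C.d0s]
    have : H96.vk t w 0 * t = w * t * w⁻¹ := by rw [H96.vk]; group
    rw [this, conj_pow, ht]
    group
  · rw [map_pow, map_mul, h1, C.d1s, one_mul, ht]

theorem d1_acor {t w : P} {x : E} {m k : ℕ} (c : ℤ) (ht : t ^ m = 1) (h1 : C.d1 x = 1)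
    (h0 : C.d0 x = H96.vk t w 0) : C.d1 (acor (C.s t) x m k c) = 1 := by
  have h := (mem_Ker2 C).mp (pow_mem ht h1 h0)
  unfold acor
  rw [map_mul, map_zpow, h.2, map_aseq, h1, aseq_one]
  simp

theorem d0_acor {t w : P} {x : E} {m k : ℕ} (c : ℤ) (ht : t ^ m = 1) (h1 : C.d1 x = 1)
    (h0 : C.d0 x = H96.vk t w 0) : C.d0 (acor (C.s t) x m k c) = H96.vk t w k := by
  have h := (mem_Ker2 C).mp (pow_mem ht h1 h0)
  unfold acor
  rw [map_mul, map_zpow, h.1, map_aseq, h0, C.d0s, aseq_vk]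
  simp

theorem acor_kap {t w : P} {x : E} {m k : ℕ} (c : ℤ) (ht : t ^ m = 1) (h1 : C.d1 x = 1)
    (h0 : C.d0 x = H96.vk t w 0) (g : Additive (Ker2 C)) :
    acor (C.s t) (kap C g * x) m k c = kap C (((1 + ktau C (C.s t)) ^ k +
      c • ∑ j ∈ Finset.range m, ktau C (C.s t) ^ j) g) * acor (C.s t) x m k c := by
  have hz := pow_mem ht h1 h0
  unfold acor
  rw [aseq_kap C _ _ h1, pow_kap C _ _ h1]
  set u := ((1 + ktau C (C.s t)) ^ k) g
  set v := (∑ j ∈ Finset.range m, ktau C (C.s t) ^ j) g with hv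
  set z := (x * C.s t) ^ m
  have e1 : Commute (kap C v) z := Ker2_comm C (kap_mem C v) hz.2
  rw [e1.mul_zpow]
  have e2 : ((1 + ktau C (C.s t)) ^ k + c • ∑ j ∈ Finset.range m, ktau C (C.s t) ^ j) g
      = u + c • v := by
    rw [LinearMap.add_apply, LinearMap.smul_apply]
  rw [e2, kap_add, kap_zsmul]
  have h3 : C.d1 (aseq (C.s t) x k) = 1 := by rw [map_aseq, h1, aseq_one]
  have e3 := Ker2_comm C (kap_mem C (c • v)) h3
  rw [kap_zsmul] at e3
  calc kap C u * aseq (C.s t) x k * (kap C v ^ c * z ^ c)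
      = kap C u * (aseq (C.s t) x k * kap C v ^ c) * z ^ c := by group
    _ = kap C u * (kap C v ^ c * aseq (C.s t) x k) * z ^ c := by rw [e3]
    _ = _ := by group

/-- injectivity -/
theorem acor_inj {t w : P} {x y : E} {m k : ℕ} (hm : Odd m) (c : ℤ) (hc : 2 ^ k + c * m = 1)
    (ht : t ^ m = 1) (h1 : C.d1 x = 1) (h0 : C.d0 x = H96.vk t w 0) (h1' : C.d1 y = 1)
    (h0' : C.d0 y = H96.vk t w 0)
    (e : acor (C.s t) x m k c = acor (C.s t) y m k c) : x = y := by
  obtain ⟨u, -, hu⟩ := unit_end (ktau C (C.s t)) m k hm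
    (ktau_pow_eq C _ m (by rw [← map_pow, ht, map_one])) c hc
  obtain ⟨g, hg⟩ := exists_kap C (h := x * y⁻¹) (by
    rw [mem_Ker2]; simp [h0, h0', h1, h1'])
  have hx : x = kap C g * y := by rw [hg]; group
  rw [hx, acor_kap c ht h1' h0', mul_eq_right] at e
  have h2 := kap_inj C (e.trans (kap_zero C).symm)
  have h3 := congrArg u h2
  rw [← Module.End.mul_apply, hu, map_zero] at h3
  have h4 : g = 0 := h3
  rw [hx, h4, kap_zero, one_mul]

/-- surjectivity -/
theorem acor_surj {t w : P} {x x' : E} {m k : ℕ} (hm : Odd m) (c : ℤ) (hc : 2 ^ k + c * m = 1)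
    (ht : t ^ m = 1) (h1 : C.d1 x = 1) (h0 : C.d0 x = H96.vk t w 0) (h1' : C.d1 x' = 1)
    (h0' : C.d0 x' = H96.vk t w k) :
    ∃ y, C.d1 y = 1 ∧ C.d0 y = H96.vk t w 0 ∧ acor (C.s t) y m k c = x' := by
  obtain ⟨u, hu, -⟩ := unit_end (ktau C (C.s t)) m k hm
    (ktau_pow_eq C _ m (by rw [← map_pow, ht, map_one])) c hc
  obtain ⟨g, hg⟩ := exists_kap C (h := x' * (acor (C.s t) x m k c)⁻¹) (by
    rw [mem_Ker2, map_mul, map_mul, map_inv, map_inv, h0', h1', d0_acor c ht h1 h0,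
      d1_acor c ht h1 h0]
    simp)
  have hk := (mem_Ker2 C).mp (kap_mem C (u g))
  refine ⟨kap C (u g) * x, by rw [map_mul, hk.2, h1, one_mul],
    by rw [map_mul, hk.1, h0, one_mul], ?_⟩
  rw [acor_kap c ht h1 h0, ← Module.End.mul_apply, hu]
  show kap C g * _ = x'
  rw [hg]
  group

/-- the loop `v_0` bounds -/
theorem exists_base {t w : P} {x' : E} {m k : ℕ} (hm : Odd m) (ht : t ^ m = 1)
    (h1' : C.d1 x' = 1) (h0' : C.d0 x' = H96.vk t w k) :
    ∃ y, C.d1 y = 1 ∧ C.d0 y = H96.vk t w 0 := by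
  let N : Subgroup P := C.d1.ker.map C.d0
  have hN : N.Normal := Subgroup.Normal.map inferInstance C.d0 (fun p => ⟨C.s p, C.d0s p⟩)
  have hv : ∀ j, QuotientGroup.mk' N (H96.vk t w j)
      = H96.vk (QuotientGroup.mk' N t) (QuotientGroup.mk' N w) j := fun j => by
    have e : QuotientGroup.mk' N (H96.vk t w 0)
        = H96.vk (QuotientGroup.mk' N t) (QuotientGroup.mk' N w) 0 := by
      simp only [H96.vk, map_mul, map_inv]
    rw [← aseq_vk t w j, map_aseq, e, aseq_vk]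
  have h1 : H96.vk (QuotientGroup.mk' N t) (QuotientGroup.mk' N w) k = 1 := by
    rw [← hv]
    exact (QuotientGroup.eq_one_iff _).mpr ⟨x', h1', h0'⟩
  have h2 := H96.comm_of_vk _ _ m k hm (by rw [← map_pow, ht, map_one]) h1
  have h3 := H96.vk_eq_one h2 0
  rw [← hv] at h3
  obtain ⟨y, hy, hy'⟩ := (QuotientGroup.eq_one_iff _).mp h3
  exact ⟨y, hy, hy'⟩

end Cat

/-- P4 -/
theorem alg : AlgStatement := by
  intro P E E' _ _ _ C C' t w m k x x' hm ht hk hx1 hx0 hx1' hx0'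
  obtain ⟨c, hc⟩ : ∃ c : ℤ, 2 ^ k + c * m = 1 := by
    have h1 : ((2 ^ k - 1 : ℤ) : ZMod m) = 0 := by
      push_cast
      rw [hk, sub_self]
    rw [ZMod.intCast_zmod_eq_zero_iff_dvd] at h1
    obtain ⟨d, hd⟩ := h1
    exact ⟨-d, by linear_combination hd⟩
  obtain ⟨y, hy1, hy0⟩ := exists_base (C := C') hm ht hx1' hx0'
  obtain ⟨b, hb1, hb0, hb⟩ := acor_surj (C := C') hm c hc ht hy1 hy0 hx1' hx0'
  refine ⟨acor (C.s t) x m k c, b, d1_acor c ht hx1 hx0, d0_acor c ht hx1 hx0, hb1, hb0, ?_, ?_⟩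
  · intro φ hφ e
    apply acor_inj (C := C) hm c hc ht (by rw [hφ.d1, hb1]) (by rw [hφ.d0, hb0]) hx1 hx0
    rw [← e, ← hb, map_acor, hφ.s]
  · intro ψ hψ e
    rw [map_acor, hψ.s, e, hb]

end Pool.Agent.Lib.MP_50ef00_gt.H72
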