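import Mathlib
import Pool.Agent.Lib.MP_50ef00_gt.Pos

/-!
Classes of loops in `Pi1`, functoriality.
-/

namespace Pool.Agent.Lib.MP_50ef00_gt.H72

open scoped unitInterval
open Pool.Agent.Lib.MP_50ef00_gt

variable {X Y Z : Type} [TopologicalSpace X] [TopologicalSpace Y] [TopologicalSpace Z]

theorem cls_trans {x : X} (γ γ' : Path x x) : cls (γ.trans γ') = cls γ * cls γ' := rfl

theorem cls_refl (x : X) : cls (Path.refl x) = 1 := rfl

theorem cls_symm {x : X} (γ : Path x x) : cls γ.symm = (cls γ)⁻¹ := rfl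

theorem cls_eq {x : X} {γ γ' : Path x x} : cls γ = cls γ' ↔ γ.Homotopic γ' := by
  unfold cls
  rw [MulOpposite.op_inj]
  exact Path.Homotopic.Quotient.eq

theorem cls_surj {x : X} (g : Pi1 X x) : ∃ γ : Path x x, cls γ = g := by
  obtain ⟨γ, h⟩ := Path.Homotopic.Quotient.mk_surjective (FundamentalGroup.toPath g.unop)
  exact ⟨γ, by unfold cls; rw [h]; rfl⟩

/-- pushing forward a loop -/
def push {x : X} {y : Y} (φ : C(X, Y)) (h : φ x = y) (γ : Path x x) : Path y y :=
  (γ.map φ.continuous).cast h.symm h.symm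

@[simp] theorem push_apply {x : X} {y : Y} (φ : C(X, Y)) (h : φ x = y) (γ : Path x x) (α : I) :
    push φ h γ α = φ (γ α) := rfl

/-- the induced map -/
noncomputable def pmap {x : X} {y : Y} (φ : C(X, Y)) (h : φ x = y) : Pi1 X x →* Pi1 Y y :=
  MonoidHom.op (FundamentalGroup.mapOfEq φ h)

theorem pmap_cls {x : X} {y : Y} (φ : C(X, Y)) (h : φ x = y) (γ : Path x x) :
    pmap φ h (cls γ) = cls (push φ h γ) := by
  subst h
  change MulOpposite.op (FundamentalGroup.mapOfEq φ rfl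
    (FundamentalGroup.fromPath (Path.Homotopic.Quotient.mk γ))) = _
  rw [FundamentalGroup.mapOfEq_apply]
  rfl

theorem push_push {x : X} {y : Y} {z : Z} (φ : C(X, Y)) (h : φ x = y) (ψ : C(Y, Z)) (h' : ψ y = z)
    (γ : Path x x) (h'' : ψ.comp φ x = z) : push ψ h' (push φ h γ) = push (ψ.comp φ) h'' γ := by
  ext α; rfl

theorem pmap_pmap {x : X} {y : Y} {z : Z} (φ : C(X, Y)) (h : φ x = y) (ψ : C(Y, Z)) (h' : ψ y = z)
    (g : Pi1 X x) (χ : C(X, Z)) (hχ : ∀ x, χ x = ψ (φ x)) :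
    pmap ψ h' (pmap φ h g) = pmap χ (by rw [hχ, h, h']) g := by
  obtain ⟨γ, rfl⟩ := cls_surj g
  rw [pmap_cls, pmap_cls, pmap_cls]
  congr 1
  ext α
  simp [hχ]

/-- two maps which are homotopic relative to the base point induce the same map -/
theorem pmap_eq_of_homotopy {x : X} {y : Y} (φ ψ : C(X, Y)) (h : φ x = y) (h' : ψ x = y)
    (H : C(I × X, Y)) (H0 : ∀ x, H (0, x) = φ x) (H1 : ∀ x, H (1, x) = ψ x)
    (Hx : ∀ r, H (r, x) = y) (g : Pi1 X x) : pmap φ h g = pmap ψ h' g := by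
  obtain ⟨γ, rfl⟩ := cls_surj g
  rw [pmap_cls, pmap_cls, cls_eq]
  exact ⟨{
    toFun := fun q => H (q.1, γ q.2)
    continuous_toFun := by fun_prop
    map_zero_left := fun s => by simp [H0]
    map_one_left := fun s => by simp [H1]
    prop' := fun r s hs => by
      rcases hs with rfl | hs
      · simp [Hx]
      · rw [Set.mem_singleton_iff] at hs
        subst hs
        simp [Hx] }⟩

end Pool.Agent.Lib.MP_50ef00_gt.H72
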