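import Mathlib
import Pool.Agent.Lib.MP_50ef00_gt.H72.Pi

/-!
The homotopy pullback of a map with itself, and its cat¹-group.
-/

namespace Pool.Agent.Lib.MP_50ef00_gt.H72

open scoped unitInterval
open Pool.Agent.Lib.MP_50ef00_gt

variable {A Y : Type} [TopologicalSpace A] [TopologicalSpace Y]

/-- the homotopy pullback: two points of `A` and a path in `Y` between their images -/
def HP (f : C(A, Y)) : Type := {q : A × A × C(I, Y) // q.2.2 0 = f q.1 ∧ q.2.2 1 = f q.2.1}

instance (f : C(A, Y)) : TopologicalSpace (HP f) := instTopologicalSpaceSubtype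

/-- first point -/
def hd0 (f : C(A, Y)) : C(HP f, A) := ⟨fun q => q.1.1, by
  exact continuous_fst.comp continuous_subtype_val⟩

/-- second point -/
def hd1 (f : C(A, Y)) : C(HP f, A) := ⟨fun q => q.1.2.1, by
  exact (continuous_fst.comp continuous_snd).comp continuous_subtype_val⟩

/-- the path -/
def hev (f : C(A, Y)) : C(HP f × I, Y) := ⟨fun q => q.1.1.2.2 q.2, by
  have h : Continuous fun q : HP f × I => (q.1.1.2.2, q.2) :=
    (((continuous_snd.comp continuous_snd).comp continuous_subtype_val).comp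
      continuous_fst).prodMk continuous_snd
  exact continuous_eval.comp h⟩

theorem hev_zero {f : C(A, Y)} (q : HP f) : hev f (q, 0) = f (hd0 f q) := q.2.1
theorem hev_one {f : C(A, Y)} (q : HP f) : hev f (q, 1) = f (hd1 f q) := q.2.2

/-- construction of maps into `HP f` -/
def mkHP {T : Type} [TopologicalSpace T] {f : C(A, Y)} (a b : C(T, A)) (P : C(T × I, Y))
    (h0 : ∀ t, P (t, 0) = f (a t)) (h1 : ∀ t, P (t, 1) = f (b t)) : C(T, HP f) where
  toFun t := ⟨(a t, b t, P.curry t), h0 t, h1 t⟩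
  continuous_toFun := by
    apply Continuous.subtype_mk
    exact a.continuous.prodMk (b.continuous.prodMk P.curry.continuous)

theorem hd0_mk {T : Type} [TopologicalSpace T] {f : C(A, Y)} (a b : C(T, A)) (P : C(T × I, Y))
    (h0 : ∀ t, P (t, 0) = f (a t)) (h1 : ∀ t, P (t, 1) = f (b t)) (t : T) :
    hd0 f (mkHP a b P h0 h1 t) = a t := rfl
theorem hd1_mk {T : Type} [TopologicalSpace T] {f : C(A, Y)} (a b : C(T, A)) (P : C(T × I, Y))
    (h0 : ∀ t, P (t, 0) = f (a t)) (h1 : ∀ t, P (t, 1) = f (b t)) (t : T) :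
    hd1 f (mkHP a b P h0 h1 t) = b t := rfl
theorem hev_mk {T : Type} [TopologicalSpace T] {f : C(A, Y)} (a b : C(T, A)) (P : C(T × I, Y))
    (h0 : ∀ t, P (t, 0) = f (a t)) (h1 : ∀ t, P (t, 1) = f (b t)) (t : T) (r : I) :
    hev f (mkHP a b P h0 h1 t, r) = P (t, r) := rfl

theorem HP_ext {f : C(A, Y)} {q q' : HP f} (h0 : hd0 f q = hd0 f q') (h1 : hd1 f q = hd1 f q')
    (h : ∀ r, hev f (q, r) = hev f (q', r)) : q = q' := by
  apply Subtype.ext
  refine Prod.ext h0 (Prod.ext h1 (ContinuousMap.ext h))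

/-- the diagonal -/
def hdiag (f : C(A, Y)) : C(A, HP f) :=
  mkHP (ContinuousMap.id A) (ContinuousMap.id A) ⟨fun q => f q.1, by fun_prop⟩
    (fun _ => rfl) (fun _ => rfl)

@[simp] theorem hd0_diag {f : C(A, Y)} (a : A) : hd0 f (hdiag f a) = a := rfl
@[simp] theorem hd1_diag {f : C(A, Y)} (a : A) : hd1 f (hdiag f a) = a := rfl
@[simp] theorem hev_diag {f : C(A, Y)} (a : A) (r : I) : hev f (hdiag f a, r) = f a := rfl

/-- swapping the two points -/
def hsw (f : C(A, Y)) : C(HP f, HP f) :=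
  mkHP (hd1 f) (hd0 f) ⟨fun q => hev f (q.1, unitInterval.symm q.2), by fun_prop⟩
    (fun t => by simp [hev_one]) (fun t => by simp [hev_zero])

@[simp] theorem hd0_sw {f : C(A, Y)} (q : HP f) : hd0 f (hsw f q) = hd1 f q := rfl
@[simp] theorem hd1_sw {f : C(A, Y)} (q : HP f) : hd1 f (hsw f q) = hd0 f q := rfl
@[simp] theorem hev_sw {f : C(A, Y)} (q : HP f) (r : I) :
    hev f (hsw f q, r) = hev f (q, unitInterval.symm r) := rfl

theorem hsw_sw {f : C(A, Y)} (q : HP f) : hsw f (hsw f q) = q :=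
  HP_ext rfl rfl (fun r => by simp)

theorem hsw_diag {f : C(A, Y)} (a : A) : hsw f (hdiag f a) = hdiag f a :=
  HP_ext rfl rfl (fun r => by simp)

/-! ### moving the second point along a homotopy -/

theorem if_cont {T : Type} [TopologicalSpace T] (u v : T → Y) (g : T → ℝ) (hu : Continuous u)
    (hv : Continuous v) (hg : Continuous g) (h : ∀ t, g t = 1 → u t = v t) :
    Continuous fun t => if g t ≤ 1 then u t else v t :=
  Continuous.if_le hu hv hg continuous_const h

theorem proj_of_le {x : ℝ} (h0 : 0 ≤ x) (h1 : x ≤ 1) :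
    Set.projIcc (0 : ℝ) 1 zero_le_one x = ⟨x, h0, h1⟩ := Set.projIcc_of_mem _ _

theorem move1 {f : C(A, Y)} {x₀ : A} (l : Path (hdiag f x₀) (hdiag f x₀)) (b' : Path x₀ x₀)
    (B : Path.Homotopy (push (hd1 f) (hd1_diag x₀) l) b') :
    ∃ l' : Path (hdiag f x₀) (hdiag f x₀), l.Homotopic l' ∧ (∀ α, hd1 f (l' α) = b' α) ∧
      (∀ α, hd0 f (l' α) = hd0 f (l α)) := by
  have hB0 : ∀ α, B (0, α) = hd1 f (l α) := fun α => by simp
  have hB1 : ∀ α, B (1, α) = b' α := fun α => by simp
  -- the path part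
  let P : C((I × I) × I, Y) :=
    ⟨fun x => if (1 + (x.1.1 : ℝ)) * (x.2 : ℝ) ≤ 1 then
        hev f (l x.1.2, Set.projIcc 0 1 zero_le_one ((1 + (x.1.1 : ℝ)) * (x.2 : ℝ)))
      else f (B (Set.projIcc 0 1 zero_le_one ((1 + (x.1.1 : ℝ)) * (x.2 : ℝ) - 1), x.1.2)), by
      apply if_cont
      · have : Continuous fun x : (I × I) × I => (l x.1.2,
            Set.projIcc (0 : ℝ) 1 zero_le_one ((1 + (x.1.1 : ℝ)) * (x.2 : ℝ))) :=
          Continuous.prodMk (by fun_prop) (continuous_projIcc.comp (by fun_prop))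
        exact (hev f).continuous.comp this
      · have : Continuous fun x : (I × I) × I => (
            Set.projIcc (0 : ℝ) 1 zero_le_one ((1 + (x.1.1 : ℝ)) * (x.2 : ℝ) - 1), x.1.2) :=
          Continuous.prodMk (continuous_projIcc.comp (by fun_prop)) (by fun_prop)
        exact f.continuous.comp (B.continuous.comp this)
      · fun_prop
      · intro x hx
        rw [hx]
        have e1 : Set.projIcc (0 : ℝ) 1 zero_le_one 1 = 1 := by simp
        have e2 : Set.projIcc (0 : ℝ) 1 zero_le_one (1 - 1) = 0 := by simp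
        rw [e1, e2, hev_one, hB0]⟩
  have hPd : ∀ q α r, P ((q, α), r) = if (1 + (q : ℝ)) * (r : ℝ) ≤ 1 then
        hev f (l α, Set.projIcc 0 1 zero_le_one ((1 + (q : ℝ)) * (r : ℝ)))
      else f (B (Set.projIcc 0 1 zero_le_one ((1 + (q : ℝ)) * (r : ℝ) - 1), α)) :=
    fun _ _ _ => rfl
  let J : C(I × I, HP f) := mkHP ⟨fun x => hd0 f (l x.2), by fun_prop⟩ ⟨fun x => B x, by fun_prop⟩ P
    (by
      rintro ⟨q, α⟩
      rw [hPd, if_pos (by simp)]
      simp [hev_zero])
    (by
      rintro ⟨q, α⟩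
      rw [hPd]
      simp only [Set.Icc.coe_one, mul_one, add_sub_cancel_left, ContinuousMap.coe_mk]
      split_ifs with h
      · have hq : q = 0 := by
          apply Subtype.ext
          have := q.2.1
          simp only [Set.Icc.coe_zero]
          linarith
        subst hq
        simp [hev_one]
      · simp)
  have hJ0 : ∀ x, hd0 f (J x) = hd0 f (l x.2) := fun _ => rfl
  have hJ1 : ∀ x, hd1 f (J x) = B x := fun _ => rfl
  have hJe : ∀ x r, hev f (J x, r) = P (x, r) := fun _ _ => rfl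
  have hbase : ∀ q α, l α = hdiag f x₀ → (∀ q', B (q', α) = x₀) → J (q, α) = hdiag f x₀ := by
    intro q α hl hb
    apply HP_ext
    · rw [hJ0]; simp only; rw [hl]
    · rw [hJ1, hb]; simp
    · intro r
      rw [hJe, hPd, hl, hb]
      simp
  have h0 : ∀ q, J (q, 0) = hdiag f x₀ := fun q => hbase q 0 (by simp) (fun q' => by simp)
  have h1 : ∀ q, J (q, 1) = hdiag f x₀ := fun q => hbase q 1 (by simp) (fun q' => by simp)
  refine ⟨⟨⟨fun α => J (1, α), by fun_prop⟩, h0 1, h1 1⟩, ⟨{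
    toFun := J
    continuous_toFun := J.continuous
    map_zero_left := fun α => ?_
    map_one_left := fun α => rfl
    prop' := fun r s hs => ?_ }⟩, fun α => ?_, fun α => ?_⟩
  · apply HP_ext
    · rfl
    · rw [hJ1, hB0]; rfl
    · intro r
      rw [hJe, hPd]
      have hr := r.2.2
      simp only [Set.Icc.coe_zero, add_zero, one_mul, hr, if_true]
      rw [Set.projIcc_val]
      rfl
  · rcases hs with rfl | hs
    · simpa using h0 r
    · rw [Set.mem_singleton_iff] at hs
      subst hs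
      simpa using h1 r
  · exact (hJ1 (1, α)).trans (hB1 α)
  · rfl

theorem move0 {f : C(A, Y)} {x₀ : A} (l : Path (hdiag f x₀) (hdiag f x₀)) (b' : Path x₀ x₀)
    (B : Path.Homotopy (push (hd0 f) (hd0_diag x₀) l) b') :
    ∃ l' : Path (hdiag f x₀) (hdiag f x₀), l.Homotopic l' ∧ (∀ α, hd0 f (l' α) = b' α) ∧
      (∀ α, hd1 f (l' α) = hd1 f (l α)) := by
  obtain ⟨l', h, h1, h2⟩ := move1 (push (hsw f) (hsw_diag x₀) l) b' (B.cast rfl rfl)
  refine ⟨push (hsw f) (hsw_diag x₀) l', ?_, fun α => h1 α, fun α => h2 α⟩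
  have h3 := (h.map (hsw f)).pathCast (hsw_diag x₀).symm (hsw_diag x₀).symm
  have h4 : ((push (hsw f) (hsw_diag x₀) l).map (hsw f).continuous).cast (hsw_diag x₀).symm
      (hsw_diag x₀).symm = l := by
    ext α
    exact hsw_sw _
  rw [h4] at h3
  exact h3

end Pool.Agent.Lib.MP_50ef00_gt.H72
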