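import Mathlib
import Pool.Agent.Lib.MP_50ef00_gt.H72.HP

/-!
The cat¹-group of a map.
-/

namespace Pool.Agent.Lib.MP_50ef00_gt.H72

open scoped unitInterval
open Pool.Agent.Lib.MP_50ef00_gt

variable {A Y : Type} [TopologicalSpace A] [TopologicalSpace Y]

/-- second point constant -/
abbrev HP1 (f : C(A, Y)) (x₀ : A) := {q : HP f // hd1 f q = x₀}
/-- first point constant -/
abbrev HP2 (f : C(A, Y)) (x₀ : A) := {q : HP f // hd0 f q = x₀}

/-- inclusion -/
def in1 (f : C(A, Y)) (x₀ : A) : C(HP1 f x₀, HP f) := ⟨Subtype.val, continuous_subtype_val⟩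
/-- inclusion -/
def in2 (f : C(A, Y)) (x₀ : A) : C(HP2 f x₀, HP f) := ⟨Subtype.val, continuous_subtype_val⟩

/-- base point -/
def b1 (f : C(A, Y)) (x₀ : A) : HP1 f x₀ := ⟨hdiag f x₀, rfl⟩
/-- base point -/
def b2 (f : C(A, Y)) (x₀ : A) : HP2 f x₀ := ⟨hdiag f x₀, rfl⟩

/-- the composition of the two paths -/
noncomputable def comb (f : C(A, Y)) (x₀ : A) : C(HP1 f x₀ × HP2 f x₀, HP f) :=
  mkHP ⟨fun q => hd0 f q.1.1, by fun_prop⟩ ⟨fun q => hd1 f q.2.1, by fun_prop⟩
    ⟨fun x => if 2 * (x.2 : ℝ) ≤ 1 then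
        hev f (x.1.1.1, Set.projIcc 0 1 zero_le_one (2 * (x.2 : ℝ)))
      else hev f (x.1.2.1, Set.projIcc 0 1 zero_le_one (2 * (x.2 : ℝ) - 1)), by
      apply if_cont
      · have : Continuous fun x : (HP1 f x₀ × HP2 f x₀) × I => (x.1.1.1,
            Set.projIcc (0 : ℝ) 1 zero_le_one (2 * (x.2 : ℝ))) :=
          Continuous.prodMk (by fun_prop) (continuous_projIcc.comp (by fun_prop))
        exact (hev f).continuous.comp this
      · have : Continuous fun x : (HP1 f x₀ × HP2 f x₀) × I => (x.1.2.1,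
            Set.projIcc (0 : ℝ) 1 zero_le_one (2 * (x.2 : ℝ) - 1)) :=
          Continuous.prodMk (by fun_prop) (continuous_projIcc.comp (by fun_prop))
        exact (hev f).continuous.comp this
      · fun_prop
      · intro x hx
        rw [hx]
        have e1 : Set.projIcc (0 : ℝ) 1 zero_le_one 1 = 1 := by simp
        have e2 : Set.projIcc (0 : ℝ) 1 zero_le_one (1 - 1) = 0 := by simp
        rw [e1, e2, hev_one, hev_zero, x.1.1.2, x.1.2.2]⟩
    (by
      rintro ⟨q, q'⟩
      simp [hev_zero])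
    (by
      rintro ⟨q, q'⟩
      have h : ¬ (2 * ((1 : I) : ℝ) ≤ 1) := by norm_num
      simp only [ContinuousMap.coe_mk, h, if_false]
      have e : Set.projIcc (0 : ℝ) 1 zero_le_one (2 * ((1 : I) : ℝ) - 1) = 1 := by
        have : (2 * ((1 : I) : ℝ) - 1) = 1 := by norm_num
        rw [this]; simp
      rw [e, hev_one])

theorem hev_comb (f : C(A, Y)) (x₀ : A) (q : HP1 f x₀ × HP2 f x₀) (r : I) :
    hev f (comb f x₀ q, r) = if 2 * (r : ℝ) ≤ 1 then
        hev f (q.1.1, Set.projIcc 0 1 zero_le_one (2 * (r : ℝ)))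
      else hev f (q.2.1, Set.projIcc 0 1 zero_le_one (2 * (r : ℝ) - 1)) := rfl

theorem comb_base (f : C(A, Y)) (x₀ : A) : comb f x₀ (b1 f x₀, b2 f x₀) = hdiag f x₀ := by
  apply HP_ext
  · rfl
  · rfl
  · intro r
    rw [hev_comb]
    simp [b1, b2]

/-- `q ↦ q * const` is homotopic to the inclusion -/
theorem comb_left (f : C(A, Y)) (x₀ : A) (g : Pi1 (HP1 f x₀) (b1 f x₀)) :
    pmap ((comb f x₀).comp ⟨fun q => (q, b2 f x₀), by fun_prop⟩) (comb_base f x₀) g
      = pmap (in1 f x₀) rfl g := by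
  symm
  let P : C((I × HP1 f x₀) × I, Y) :=
    ⟨fun x => hev f (x.1.2.1, Set.projIcc 0 1 zero_le_one ((1 + (x.1.1 : ℝ)) * (x.2 : ℝ))), by
      have : Continuous fun x : (I × HP1 f x₀) × I => (x.1.2.1,
            Set.projIcc (0 : ℝ) 1 zero_le_one ((1 + (x.1.1 : ℝ)) * (x.2 : ℝ))) :=
          Continuous.prodMk (by fun_prop) (continuous_projIcc.comp (by fun_prop))
      exact (hev f).continuous.comp this⟩
  have hP : ∀ r q α, P ((r, q), α)
      = hev f (q.1, Set.projIcc 0 1 zero_le_one ((1 + (r : ℝ)) * (α : ℝ))) := fun _ _ _ => rfl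
  let J : C(I × HP1 f x₀, HP f) := mkHP ⟨fun x => hd0 f x.2.1, by fun_prop⟩
    ⟨fun x => hd1 f x.2.1, by fun_prop⟩ P
    (by rintro ⟨r, q⟩; rw [hP]; simp [hev_zero])
    (by
      rintro ⟨r, q⟩
      rw [hP]
      have e : Set.projIcc (0 : ℝ) 1 zero_le_one ((1 + (r : ℝ)) * ((1 : I) : ℝ)) = 1 := by
        apply Set.projIcc_of_right_le
        have := r.2.1
        simp only [Set.Icc.coe_one, mul_one]
        linarith
      rw [e, hev_one]; rfl)
  have hJe : ∀ x r, hev f (J x, r) = P (x, r) := fun _ _ => rfl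
  apply pmap_eq_of_homotopy _ _ _ _ J
  · intro q
    apply HP_ext
    · rfl
    · rfl
    · intro r
      rw [hJe, hP]
      simp only [Set.Icc.coe_zero, add_zero, one_mul]
      rw [Set.projIcc_val]; rfl
  · intro q
    apply HP_ext
    · rfl
    · show hd1 f q.1 = x₀
      exact q.2
    · intro r
      rw [hJe, hP]
      change _ = hev f (comb f x₀ (q, b2 f x₀), r)
      rw [hev_comb]
      have e : (1 + ((1 : I) : ℝ)) * (r : ℝ) = 2 * (r : ℝ) := by norm_num
      rw [e]
      split_ifs with h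
      · rfl
      · have e1 : Set.projIcc (0 : ℝ) 1 zero_le_one (2 * (r : ℝ)) = 1 :=
          Set.projIcc_of_right_le _ (by linarith)
        rw [e1, hev_one, q.2]
        rfl
  · intro r
    apply HP_ext
    · rfl
    · rfl
    · intro α
      rw [hJe, hP]; rfl

/-- `q ↦ const * q` is homotopic to the inclusion -/
theorem comb_right (f : C(A, Y)) (x₀ : A) (g : Pi1 (HP2 f x₀) (b2 f x₀)) :
    pmap ((comb f x₀).comp ⟨fun q => (b1 f x₀, q), by fun_prop⟩) (comb_base f x₀) g
      = pmap (in2 f x₀) rfl g := by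
  symm
  let P : C((I × HP2 f x₀) × I, Y) :=
    ⟨fun x => hev f (x.1.2.1, Set.projIcc 0 1 zero_le_one
        ((1 + (x.1.1 : ℝ)) * (x.2 : ℝ) - (x.1.1 : ℝ))), by
      have : Continuous fun x : (I × HP2 f x₀) × I => (x.1.2.1,
            Set.projIcc (0 : ℝ) 1 zero_le_one ((1 + (x.1.1 : ℝ)) * (x.2 : ℝ) - (x.1.1 : ℝ))) :=
          Continuous.prodMk (by fun_prop) (continuous_projIcc.comp (by fun_prop))
      exact (hev f).continuous.comp this⟩
  have hP : ∀ r q α, P ((r, q), α)
      = hev f (q.1, Set.projIcc 0 1 zero_le_one ((1 + (r : ℝ)) * (α : ℝ) - (r : ℝ))) :=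
    fun _ _ _ => rfl
  let J : C(I × HP2 f x₀, HP f) := mkHP ⟨fun x => hd0 f x.2.1, by fun_prop⟩
    ⟨fun x => hd1 f x.2.1, by fun_prop⟩ P
    (by
      rintro ⟨r, q⟩
      rw [hP]
      have e : Set.projIcc (0 : ℝ) 1 zero_le_one ((1 + (r : ℝ)) * ((0 : I) : ℝ) - (r : ℝ)) = 0 := by
        apply Set.projIcc_of_le_left
        have := r.2.1
        simp only [Set.Icc.coe_zero, mul_zero]
        linarith
      rw [e, hev_zero]; rfl)
    (by
      rintro ⟨r, q⟩
      rw [hP]
      have e : Set.projIcc (0 : ℝ) 1 zero_le_one ((1 + (r : ℝ)) * ((1 : I) : ℝ) - (r : ℝ)) = 1 := by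
        apply Set.projIcc_of_right_le
        simp
      rw [e, hev_one]; rfl)
  have hJe : ∀ x r, hev f (J x, r) = P (x, r) := fun _ _ => rfl
  apply pmap_eq_of_homotopy _ _ _ _ J
  · intro q
    apply HP_ext
    · rfl
    · rfl
    · intro r
      rw [hJe, hP]
      simp only [Set.Icc.coe_zero, add_zero, one_mul, sub_zero]
      rw [Set.projIcc_val]; rfl
  · intro q
    apply HP_ext
    · show hd0 f q.1 = x₀
      exact q.2
    · rfl
    · intro r
      rw [hJe, hP]
      change _ = hev f (comb f x₀ (b1 f x₀, q), r)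
      rw [hev_comb]
      have e : (1 + ((1 : I) : ℝ)) * (r : ℝ) - ((1 : I) : ℝ) = 2 * (r : ℝ) - 1 := by norm_num
      rw [e]
      split_ifs with h
      · have e1 : Set.projIcc (0 : ℝ) 1 zero_le_one (2 * (r : ℝ) - 1) = 0 :=
          Set.projIcc_of_le_left _ (by linarith)
        rw [e1, hev_zero, q.2]
        rfl
      · rfl
  · intro r
    apply HP_ext
    · rfl
    · rfl
    · intro α
      rw [hJe, hP]; rfl

theorem prod_comm {X X' : Type} [TopologicalSpace X] [TopologicalSpace X'] {x : X} {x' : X'}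
    (l : Path x x) (l' : Path x' x') :
    cls (l.prod (Path.refl x')) * cls ((Path.refl x).prod l')
      = cls ((Path.refl x).prod l') * cls (l.prod (Path.refl x')) := by
  rw [← cls_trans, ← cls_trans, cls_eq, Path.trans_prod_eq_prod_trans,
    Path.trans_prod_eq_prod_trans]
  have h1 : (l.trans (Path.refl x)).Homotopic ((Path.refl x).trans l) :=
    Path.Homotopic.trans ⟨Path.Homotopy.transRefl l⟩ (Path.Homotopic.symm ⟨Path.Homotopy.reflTrans l⟩)
  have h2 : ((Path.refl x').trans l').Homotopic (l'.trans (Path.refl x')) :=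
    Path.Homotopic.trans ⟨Path.Homotopy.reflTrans l'⟩
      (Path.Homotopic.symm ⟨Path.Homotopy.transRefl l'⟩)
  obtain ⟨h1⟩ := h1
  obtain ⟨h2⟩ := h2
  exact ⟨Path.Homotopic.prodHomotopy h1 h2⟩

/-- the cat¹-group of a map -/
noncomputable def cat (f : C(A, Y)) (x₀ : A) : Cat1 (Pi1 A x₀) (Pi1 (HP f) (hdiag f x₀)) where
  d0 := pmap (hd0 f) rfl
  d1 := pmap (hd1 f) rfl
  s := pmap (hdiag f) rfl
  d0s p := by
    obtain ⟨γ, rfl⟩ := cls_surj p
    rw [pmap_cls, pmap_cls]
    congr 1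
  d1s p := by
    obtain ⟨γ, rfl⟩ := cls_surj p
    rw [pmap_cls, pmap_cls]
    congr 1
  comm x y hx hy := by
    obtain ⟨l, rfl⟩ := cls_surj x
    obtain ⟨l', rfl⟩ := cls_surj y
    rw [pmap_cls, ← cls_refl, cls_eq] at hx hy
    obtain ⟨B⟩ := hx
    obtain ⟨B'⟩ := hy
    obtain ⟨m, hm, hm1, -⟩ := move1 l _ B
    obtain ⟨m', hm', hm1', -⟩ := move0 l' _ B'
    rw [cls_eq.mpr hm, cls_eq.mpr hm']
    let n : Path (b1 f x₀) (b1 f x₀) :=
      { toFun := fun α => ⟨m α, by rw [hm1]; rfl⟩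
        continuous_toFun := by fun_prop
        source' := by apply Subtype.ext; exact m.source
        target' := by apply Subtype.ext; exact m.target }
    let n' : Path (b2 f x₀) (b2 f x₀) :=
      { toFun := fun α => ⟨m' α, by rw [hm1']; rfl⟩
        continuous_toFun := by fun_prop
        source' := by apply Subtype.ext; exact m'.source
        target' := by apply Subtype.ext; exact m'.target }
    have e1 : cls m = pmap (comb f x₀) (comb_base f x₀) (cls (n.prod (Path.refl (b2 f x₀)))) := by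
      have h1 : cls m = pmap (in1 f x₀) rfl (cls n) := by
        rw [pmap_cls]; congr 1
      rw [h1, ← comb_left, pmap_cls, pmap_cls]
      congr 1
    have e2 : cls m' = pmap (comb f x₀) (comb_base f x₀) (cls ((Path.refl (b1 f x₀)).prod n')) := by
      have h1 : cls m' = pmap (in2 f x₀) rfl (cls n') := by
        rw [pmap_cls]; congr 1
      rw [h1, ← comb_right, pmap_cls, pmap_cls]
      congr 1
    rw [e1, e2, ← map_mul, prod_comm, map_mul]

/-- a map under `A` induces a map of homotopy pullbacks -/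
def hpush {Y' : Type} [TopologicalSpace Y'] {f : C(A, Y)} {f' : C(A, Y')} (g : C(Y, Y'))
    (h : ∀ a, g (f a) = f' a) : C(HP f, HP f') :=
  mkHP (hd0 f) (hd1 f) (g.comp (hev f))
    (fun t => by simp [hev_zero, h]) (fun t => by simp [hev_one, h])

theorem hpush_diag {Y' : Type} [TopologicalSpace Y'] {f : C(A, Y)} {f' : C(A, Y')} (g : C(Y, Y'))
    (h : ∀ a, g (f a) = f' a) (a : A) : hpush g h (hdiag f a) = hdiag f' a :=
  HP_ext rfl rfl (fun r => by
    show g (f a) = f' a
    exact h a)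

/-- the induced morphism of cat¹-groups -/
noncomputable def catMap {Y' : Type} [TopologicalSpace Y'] {f : C(A, Y)} {f' : C(A, Y')}
    (x₀ : A) (g : C(Y, Y')) (h : ∀ a, g (f a) = f' a) :
    Pi1 (HP f) (hdiag f x₀) →* Pi1 (HP f') (hdiag f' x₀) :=
  pmap (hpush g h) (hpush_diag g h x₀)

theorem catMap_isMor {Y' : Type} [TopologicalSpace Y'] {f : C(A, Y)} {f' : C(A, Y')}
    (x₀ : A) (g : C(Y, Y')) (h : ∀ a, g (f a) = f' a) :
    (cat f x₀).IsMor (cat f' x₀) (catMap x₀ g h) where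
  d0 x := by
    obtain ⟨γ, rfl⟩ := cls_surj x
    simp only [cat, catMap, pmap_cls]
    congr 1
  d1 x := by
    obtain ⟨γ, rfl⟩ := cls_surj x
    simp only [cat, catMap, pmap_cls]
    congr 1
  s x := by
    obtain ⟨γ, rfl⟩ := cls_surj x
    simp only [cat, catMap, pmap_cls]
    congr 1
    ext α
    exact hpush_diag g h _

end Pool.Agent.Lib.MP_50ef00_gt.H72
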