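import Mathlib
import Pool.Agent.Lib.MP_50ef00_gt.Pos
import Pool.Agent.Lib.MP_50ef00_gt.H32.HolDisc

/-!
The realization of `Kk k` is path connected.
-/

namespace Pool.Agent.Lib.MP_50ef00_gt.H72

open scoped unitInterval
open Pool.Agent.Lib.MP_50ef00_gt

/-- two points of a closed simplex are joined -/
theorem joined_of_supp {K : Finset (Finset ℕ)} {s : Finset ℕ} (hs : s ∈ K) (x y : Rz K)
    (hx : (∀ i, i ∉ s → x.1 i = 0) ∧ ∑ i ∈ s, x.1 i = 1)
    (hy : (∀ i, i ∉ s → y.1 i = 0) ∧ ∑ i ∈ s, y.1 i = 1) : Joined x y := by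
  refine ⟨{ toFun := fun r => ⟨fun i => (1 - (r : ℝ)) * x.1 i + (r : ℝ) * y.1 i, ?_⟩
            continuous_toFun := ?_
            source' := ?_
            target' := ?_ }⟩
  · have hr0 := r.2.1
    have hr1 := r.2.2
    refine ⟨fun i => ?_, s, hs, fun i hi => ?_, ?_⟩
    · have h1 := x.2.1 i
      have h2 := y.2.1 i
      have h3 : (0 : ℝ) ≤ 1 - r := by linarith
      positivity
    · show (1 - (r : ℝ)) * x.1 i + (r : ℝ) * y.1 i = 0
      rw [hx.1 i hi, hy.1 i hi]; ring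
    · rw [Finset.sum_add_distrib, ← Finset.mul_sum, ← Finset.mul_sum, hx.2, hy.2]; ring
  · apply Continuous.subtype_mk
    apply continuous_pi
    intro i
    fun_prop
  · apply Subtype.ext; funext i; simp
  · apply Subtype.ext; funext i; simp

theorem vtx_supp {K : Finset (Finset ℕ)} {s : Finset ℕ} {v : ℕ} (hv : {v} ∈ K) (h : v ∈ s) :
    (∀ i, i ∉ s → (vtx K v hv).1 i = 0) ∧ ∑ i ∈ s, (vtx K v hv).1 i = 1 := by
  constructor
  · intro i hi
    have : i ≠ v := fun e => hi (e ▸ h)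
    simp [vtx, this]
  · simp [vtx, h]

theorem joined_hol {G : Type*} [Group G] {K : Finset (Finset ℕ)} {A : ℕ → ℕ → G} {u v : ℕ} {g : G}
    (hK : IsComplex K) (h : Hol K A u v g) :
    ∃ (hu : {u} ∈ K) (hv : {v} ∈ K), Joined (vtx K u hu) (vtx K v hv) := by
  induction h with
  | refl hv => exact ⟨hv, hv, Joined.refl _⟩
  | @step v w g h hvw ih =>
    obtain ⟨hu, hv, hj⟩ := ih
    have hw : {w} ∈ K := (hK _ hvw).2 {w} (by simp) (by simp)
    exact ⟨hu, hw, hj.trans (joined_of_supp hvw _ _ (vtx_supp hv (by simp))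
      (vtx_supp hw (by simp)))⟩

theorem pathConnected_Kk (k : ℕ) : PathConnectedSpace (Rz (Kk k)) := by
  have hK := H32.isComplex_Kk k
  have h0 : {0} ∈ Kk k := H32.zero_mem_Kk k
  have key : ∀ x : Rz (Kk k), Joined (vtx (Kk k) 0 h0) x := by
    intro x
    obtain ⟨s, hs, h1, h2⟩ := x.2.2
    obtain ⟨v, hv⟩ := (hK s hs).1
    have hvK : {v} ∈ Kk k := (hK s hs).2 {v} (by simpa using hv) (by simp)
    obtain ⟨g, hg⟩ := H32.conn_Kk (B := fun _ _ => (1 : PZ)) k v hvK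
    obtain ⟨hu, hv', hj⟩ := joined_hol hK hg
    exact hj.trans (joined_of_supp hs _ _ (vtx_supp hvK hv) ⟨h1, h2⟩)
  exact { nonempty := ⟨vtx (Kk k) 0 h0⟩
          joined := fun x y => (key x).symm.trans (key y) }

end Pool.Agent.Lib.MP_50ef00_gt.H72
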