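import Mathlib
import Pool.Agent.Lib.MP_50ef00_gt.H72.Cat

/-!
Fillings and their classes in the cat¹-group.
-/

namespace Pool.Agent.Lib.MP_50ef00_gt.H72

open scoped unitInterval
open Pool.Agent.Lib.MP_50ef00_gt

variable {A Y Z : Type} [TopologicalSpace A] [TopologicalSpace Y] [TopologicalSpace Z]

theorem Path_apply_zero_fill {x₀ : A} {γ : Path x₀ x₀} {f : C(A, Y)} (G : Fill γ f) (α : I) :
    G 0 α = f (γ α) := by
  rw [G.source]; rfl

theorem Path_apply_one_fill {x₀ : A} {γ : Path x₀ x₀} {f : C(A, Y)} (G : Fill γ f) (α : I) :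
    G 1 α = f x₀ := by
  rw [G.target]; rfl

/-- the loop in the homotopy pullback given by a filling -/
def floop {x₀ : A} {γ : Path x₀ x₀} {f : C(A, Y)} (G : Fill γ f) :
    Path (hdiag f x₀) (hdiag f x₀) where
  toContinuousMap := mkHP (T := I) (f := f) ⟨fun α => γ α, by fun_prop⟩ (ContinuousMap.const I x₀)
    ⟨fun x => G x.2 x.1, by fun_prop⟩
    (fun α => Path_apply_zero_fill G α) (fun α => Path_apply_one_fill G α)
  source' := by
    apply HP_ext
    · exact γ.source
    · rfl
    · intro r
      exact (G r).source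
  target' := by
    apply HP_ext
    · exact γ.target
    · rfl
    · intro r
      exact (G r).target

theorem hd0_floop {x₀ : A} {γ : Path x₀ x₀} {f : C(A, Y)} (G : Fill γ f) (α : I) :
    hd0 f (floop G α) = γ α := rfl
theorem hd1_floop {x₀ : A} {γ : Path x₀ x₀} {f : C(A, Y)} (G : Fill γ f) (α : I) :
    hd1 f (floop G α) = x₀ := rfl
theorem hev_floop {x₀ : A} {γ : Path x₀ x₀} {f : C(A, Y)} (G : Fill γ f) (α r : I) :
    hev f (floop G α, r) = G r α := rfl

/-- the class of a filling -/
noncomputable def fcls {x₀ : A} {γ : Path x₀ x₀} {f : C(A, Y)} (G : Fill γ f) :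
    Pi1 (HP f) (hdiag f x₀) := cls (floop G)

theorem d0_fcls {x₀ : A} {γ : Path x₀ x₀} {f : C(A, Y)} (G : Fill γ f) :
    (cat f x₀).d0 (fcls G) = cls γ := by
  simp only [cat, fcls, pmap_cls]
  congr 1

theorem d1_fcls {x₀ : A} {γ : Path x₀ x₀} {f : C(A, Y)} (G : Fill γ f) :
    (cat f x₀).d1 (fcls G) = 1 := by
  simp only [cat, fcls, pmap_cls]
  rw [← cls_refl]
  congr 1

/-- every element with the right boundary is the class of a filling -/
theorem exists_fill {x₀ : A} (γ : Path x₀ x₀) (f : C(A, Y)) (c : Pi1 (HP f) (hdiag f x₀))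
    (h1 : (cat f x₀).d1 c = 1) (h0 : (cat f x₀).d0 c = cls γ) : ∃ G : Fill γ f, fcls G = c := by
  obtain ⟨l, rfl⟩ := cls_surj c
  simp only [cat, pmap_cls] at h0 h1
  rw [← cls_refl, cls_eq] at h1
  rw [cls_eq] at h0
  obtain ⟨B1⟩ := h1
  obtain ⟨B0⟩ := h0
  obtain ⟨m, hm, hm1, hm0⟩ := move1 l _ B1
  have e : push (hd0 f) (hd0_diag x₀) m = push (hd0 f) rfl l := by
    ext α
    exact hm0 α
  obtain ⟨n, hn, hn0, hn1⟩ := move0 m γ (B0.cast e.symm rfl)
  have hn1' : ∀ α, hd1 f (n α) = x₀ := fun α => by rw [hn1, hm1]; rfl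
  let g : I → Om (f x₀) := fun r =>
    { toFun := fun α => hev f (n α, r)
      continuous_toFun := by fun_prop
      source' := by rw [n.source]; rfl
      target' := by rw [n.target]; rfl }
  have hg : Continuous g := by
    apply Path.continuous_uncurry_iff.mp
    show Continuous fun x : I × I => hev f (n x.2, x.1)
    fun_prop
  refine ⟨{ toFun := g
            continuous_toFun := hg
            source' := ?_
            target' := ?_ }, ?_⟩
  · ext α
    show hev f (n α, 0) = f (γ α)
    rw [hev_zero, hn0]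
  · ext α
    show hev f (n α, 1) = f x₀
    rw [hev_one, hn1']
  · rw [cls_eq.mpr hm, cls_eq.mpr hn]
    unfold fcls
    congr 1
    ext α
    apply HP_ext
    · exact (hn0 α).symm
    · exact (hn1' α).symm
    · intro r
      rfl

/-! ### paths of loops -/

theorem continuous_push' {y : Y} {z : Z} (g : C(Y, Z)) (h : g y = z) :
    Continuous (push g h : Om y → Om z) := by
  apply Path.continuous_uncurry_iff.mp
  show Continuous fun x : Om y × I => g (x.1 x.2)
  fun_prop

/-- pushing forward a path of loops -/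
def pushP {y : Y} {z : Z} (g : C(Y, Z)) (h : g y = z) {p q : Om y} {p' q' : Om z}
    (hp : ∀ α, g (p α) = p' α) (hq : ∀ α, g (q α) = q' α) (T : Path p q) : Path p' q' :=
  (T.map (continuous_push' g h)).cast (by ext α; exact (hp α).symm) (by ext α; exact (hq α).symm)

theorem pushP_apply {y : Y} {z : Z} (g : C(Y, Z)) (h : g y = z) {p q : Om y} {p' q' : Om z}
    (hp : ∀ α, g (p α) = p' α) (hq : ∀ α, g (q α) = q' α) (T : Path p q) (r α : I) :
    pushP g h hp hq T r α = g (T r α) := rfl

theorem pushP_homotopic {y : Y} {z : Z} (g : C(Y, Z)) (h : g y = z) {p q : Om y} {p' q' : Om z}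
    (hp : ∀ α, g (p α) = p' α) (hq : ∀ α, g (q α) = q' α) {T T' : Path p q}
    (hT : T.Homotopic T') : (pushP g h hp hq T).Homotopic (pushP g h hp hq T') :=
  (hT.map ⟨push g h, continuous_push' g h⟩).pathCast _ _

theorem pushP_trans {y : Y} {z : Z} (g : C(Y, Z)) (h : g y = z) {p q s : Om y} {p' q' s' : Om z}
    (hp : ∀ α, g (p α) = p' α) (hq : ∀ α, g (q α) = q' α) (hs : ∀ α, g (s α) = s' α)
    (T : Path p q) (T' : Path q s) :
    pushP g h hp hs (T.trans T') = (pushP g h hp hq T).trans (pushP g h hq hs T') := by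
  ext r α
  rw [pushP_apply, Path.trans_apply, Path.trans_apply]
  split_ifs <;> rfl

theorem pushP_symm {y : Y} {z : Z} (g : C(Y, Z)) (h : g y = z) {p q : Om y} {p' q' : Om z}
    (hp : ∀ α, g (p α) = p' α) (hq : ∀ α, g (q α) = q' α) (T : Path p q) :
    pushP g h hq hp T.symm = (pushP g h hp hq T).symm := by
  ext r α
  rfl

/-- pushing forward a filling -/
def pushF {x₀ : A} {γ : Path x₀ x₀} {f : C(A, Y)} {f' : C(A, Z)} (g : C(Y, Z))
    (h : ∀ a, g (f a) = f' a) (G : Fill γ f) : Fill γ f' :=
  pushP g (h x₀) (fun α => h (γ α)) (fun _ => h x₀) G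

theorem pushF_apply {x₀ : A} {γ : Path x₀ x₀} {f : C(A, Y)} {f' : C(A, Z)} (g : C(Y, Z))
    (h : ∀ a, g (f a) = f' a) (G : Fill γ f) (r α : I) : pushF g h G r α = g (G r α) := rfl

theorem catMap_fcls {x₀ : A} {γ : Path x₀ x₀} {f : C(A, Y)} {f' : C(A, Z)} (g : C(Y, Z))
    (h : ∀ a, g (f a) = f' a) (G : Fill γ f) :
    catMap x₀ g h (fcls G) = fcls (pushF g h G) := by
  simp only [catMap, fcls, pmap_cls]
  congr 1

/-- a continuous square: left and top versus bottom and right -/
theorem square_homotopic {W : Type} [TopologicalSpace W] (Sq : C(I × I, W)) {a b c d : W}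
    (l : Path a b) (t : Path b d) (bo : Path a c) (r : Path c d)
    (hl : ∀ s, Sq (0, s) = l s) (ht : ∀ s, Sq (s, 1) = t s) (hb : ∀ s, Sq (s, 0) = bo s)
    (hr : ∀ s, Sq (1, s) = r s) : (l.trans t).Homotopic (bo.trans r) := by
  have ha : Sq (0, 0) = a := by rw [hl, l.source]
  have hbb : Sq (0, 1) = b := by rw [hl, l.target]
  have hc : Sq (1, 0) = c := by rw [hb, bo.target]
  have hd : Sq (1, 1) = d := by rw [hr, r.target]
  let L : Path ((0, 0) : I × I) (0, 1) := (Path.refl 0).prod Path.id
  let T : Path ((0, 1) : I × I) (1, 1) := Path.id.prod (Path.refl 1)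
  let B : Path ((0, 0) : I × I) (1, 0) := Path.id.prod (Path.refl 0)
  let R : Path ((1, 0) : I × I) (1, 1) := (Path.refl 1).prod Path.id
  have : ContractibleSpace I := (convex_Icc (0 : ℝ) 1).contractibleSpace ⟨0, by simp⟩
  have h : (L.trans T).Homotopic (B.trans R) := SimplyConnectedSpace.paths_homotopic _ _
  have h2 := (h.map Sq).pathCast ha.symm hd.symm
  have e1 : ((L.trans T).map Sq.continuous).cast ha.symm hd.symm = l.trans t := by
    ext s
    simp only [Path.cast_coe, Path.map_coe, Function.comp_apply, Path.trans_apply]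
    split_ifs
    · exact hl _
    · exact ht _
  have e2 : ((B.trans R).map Sq.continuous).cast ha.symm hd.symm = bo.trans r := by
    ext s
    simp only [Path.cast_coe, Path.map_coe, Function.comp_apply, Path.trans_apply]
    split_ifs
    · exact hb _
    · exact hr _
  rwa [e1, e2] at h2

/-- fillings with the same class differ by homotopies in `A` -/
theorem fcls_eq {x₀ : A} {γ : Path x₀ x₀} {f : C(A, Y)} (G G' : Fill γ f)
    (h : fcls G = fcls G') :
    ∃ (S : Path (γ : Om x₀) γ) (β : Path (Path.refl x₀ : Om x₀) (Path.refl x₀)),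
      (G.trans (pushP f rfl (p' := Path.refl (f x₀)) (q' := Path.refl (f x₀))
        (fun _ => rfl) (fun _ => rfl) β)).Homotopic
      ((pushP f rfl (p' := lp γ f) (q' := lp γ f) (fun _ => rfl) (fun _ => rfl) S).trans G') := by
  obtain ⟨L⟩ := cls_eq.mp h
  have hL0 : ∀ q, L (q, 0) = hdiag f x₀ := fun q => by simp
  have hL1 : ∀ q, L (q, 1) = hdiag f x₀ := fun q => by simp
  have hLz : ∀ α, L (0, α) = floop G α := fun α => by simp
  have hLo : ∀ α, L (1, α) = floop G' α := fun α => by simp
  let S : Path (γ : Om x₀) γ :=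
    { toFun := fun q =>
        { toFun := fun α => hd0 f (L (q, α))
          continuous_toFun := by fun_prop
          source' := by rw [hL0]; rfl
          target' := by rw [hL1]; rfl }
      continuous_toFun := by
        apply Path.continuous_uncurry_iff.mp
        exact (hd0 f).continuous.comp (map_continuous L)
      source' := by
        ext α
        show hd0 f (L (0, α)) = γ α
        rw [hLz]; rfl
      target' := by
        ext α
        show hd0 f (L (1, α)) = γ α
        rw [hLo]; rfl }
  let β : Path (Path.refl x₀ : Om x₀) (Path.refl x₀) :=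
    { toFun := fun q =>
        { toFun := fun α => hd1 f (L (q, α))
          continuous_toFun := by fun_prop
          source' := by rw [hL0]; rfl
          target' := by rw [hL1]; rfl }
      continuous_toFun := by
        apply Path.continuous_uncurry_iff.mp
        exact (hd1 f).continuous.comp (map_continuous L)
      source' := by
        ext α
        show hd1 f (L (0, α)) = x₀
        rw [hLz]; rfl
      target' := by
        ext α
        show hd1 f (L (1, α)) = x₀
        rw [hLo]; rfl }
  refine ⟨S, β, ?_⟩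
  let sq : I × I → Om (f x₀) := fun x =>
    { toFun := fun α => hev f (L (x.1, α), x.2)
      continuous_toFun := by fun_prop
      source' := by rw [hL0]; rfl
      target' := by rw [hL1]; rfl }
  have hsq : Continuous sq := by
    apply Path.continuous_uncurry_iff.mp
    show Continuous fun x : (I × I) × I => hev f (L (x.1.1, x.2), x.1.2)
    fun_prop
  apply square_homotopic ⟨sq, hsq⟩
  · intro s
    ext α
    show hev f (L (0, α), s) = G s α
    rw [hLz]; rfl
  · intro s
    ext α
    show hev f (L (s, α), 1) = f (hd1 f (L (s, α)))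
    rw [hev_one]
  · intro s
    ext α
    show hev f (L (s, α), 0) = f (hd0 f (L (s, α)))
    rw [hev_zero]
  · intro s
    ext α
    show hev f (L (1, α), s) = G' s α
    rw [hLo]; rfl

end Pool.Agent.Lib.MP_50ef00_gt.H72
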