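import Mathlib
import Pool.Agent.Lib.MP_50ef00_gt.H72.FillC

/-!
P3: two cells attached along `v_0` and `v_k`.
-/

namespace Pool.Agent.Lib.MP_50ef00_gt.H72

open scoped unitInterval
open Pool.Agent.Lib.MP_50ef00_gt

variable {A X Y : Type} [TopologicalSpace A] [TopologicalSpace X] [TopologicalSpace Y]

/-- groupoid identity -/
theorem quot_id1 {W : Type} [TopologicalSpace W] {a b : W} {h gh : Path a b} {β : Path b b}
    {s : Path a a} (E : (h.trans β).Homotopic (s.trans gh)) :
    ((s.trans gh).trans β.symm).Homotopic h := by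
  rw [← Path.Homotopic.Quotient.eq] at E ⊢
  simp only [Path.Homotopic.Quotient.mk_trans, Path.Homotopic.Quotient.mk_symm] at E ⊢
  rw [← E, Path.Homotopic.Quotient.trans_assoc, Path.Homotopic.Quotient.trans_symm,
    Path.Homotopic.Quotient.trans_refl]

/-- groupoid identity -/
theorem quot_id2 {W : Type} [TopologicalSpace W] {a b : W} {h gh : Path a b} {β : Path b b}
    {s : Path a a} (E : (h.trans β).Homotopic (s.trans gh)) :
    gh.Homotopic (s.symm.trans (h.trans β)) := by
  rw [← Path.Homotopic.Quotient.eq] at E ⊢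
  simp only [Path.Homotopic.Quotient.mk_trans, Path.Homotopic.Quotient.mk_symm] at E ⊢
  rw [E, ← Path.Homotopic.Quotient.trans_assoc, Path.Homotopic.Quotient.symm_trans,
    Path.Homotopic.Quotient.refl_trans]

/-- groupoid identity -/
theorem quot_id3 {W : Type} [TopologicalSpace W] {a b : W} {h : Path a b} {β : Path b b}
    {s : Path a a} : (s.symm.trans (((s.trans h).trans β.symm).trans β)).Homotopic h := by
  rw [← Path.Homotopic.Quotient.eq]
  simp only [Path.Homotopic.Quotient.mk_trans, Path.Homotopic.Quotient.mk_symm]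
  rw [Path.Homotopic.Quotient.trans_assoc, Path.Homotopic.Quotient.symm_trans,
    Path.Homotopic.Quotient.trans_refl, ← Path.Homotopic.Quotient.trans_assoc,
    Path.Homotopic.Quotient.symm_trans, Path.Homotopic.Quotient.refl_trans]

/-- a self-map under `A` which preserves the class of the filling is a homotopy equivalence -/
theorem exists_inverse {i : C(A, X)} {x₀ : A} {γ : Path x₀ x₀} {H : Fill γ i}
    (hc : IsCell i γ H) (g : C(X, X)) (hg : ∀ a, g (i a) = i a)
    (hf : fcls (pushF g hg H) = fcls H) :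
    ∃ g' : C(X, X), (g.comp g').Homotopic (ContinuousMap.id X) ∧
      (g'.comp g).Homotopic (ContinuousMap.id X) := by
  obtain ⟨S, β, E⟩ := fcls_eq H (pushF g hg H) hf.symm
  set iS : Path (lp γ i) (lp γ i) := pushP i rfl (p' := lp γ i) (q' := lp γ i) (fun _ => rfl)
    (fun _ => rfl) S with hiS
  set iβ : Path (Path.refl (i x₀) : Om (i x₀)) (Path.refl (i x₀)) :=
    pushP i rfl (p' := Path.refl (i x₀)) (q' := Path.refl (i x₀)) (fun _ => rfl)
      (fun _ => rfl) β with hiβ
  let G' : Fill γ i := ((iS).trans H).trans (iβ).symm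
  obtain ⟨g', hg', hG'⟩ := hc.ext i G'
  refine ⟨g', ?_, ?_⟩
  · refine hc.uniq i (g.comp g') (ContinuousMap.id X) (pushF g hg G') H ?_ (fun a => rfl) ?_
      (fun r α => rfl) ?_
    · intro a
      show g (g' (i a)) = i a
      rw [hg', hg]
    · intro r α
      show g (g' (H r α)) = g (G' r α)
      rw [hG']
    · have e : pushF g hg G' = ((iS).trans (pushF g hg H)).trans (iβ).symm := by
        ext r α
        show g ((((iS).trans H).trans (iβ).symm) r α) =
          (((iS).trans (pushF g hg H)).trans (iβ).symm) r α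
        simp only [Path.trans_apply]
        split_ifs
        · exact hg _
        · rfl
        · exact hg _
      rw [e]
      exact quot_id1 E
  · refine hc.uniq i (g'.comp g) (ContinuousMap.id X) (pushF g' hg' (pushF g hg H)) H ?_
      (fun a => rfl) (fun r α => rfl) (fun r α => rfl) ?_
    · intro a
      show g' (g (i a)) = i a
      rw [hg, hg']
    · have e1 : (pushF g' hg' (pushF g hg H)).Homotopic
          (pushF g' hg' ((iS).symm.trans (H.trans iβ))) :=
        pushP_homotopic _ _ _ _ (quot_id2 E)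
      have e2 : pushF g' hg' ((iS).symm.trans (H.trans iβ)) = (iS).symm.trans (G'.trans iβ) := by
        ext r α
        show g' (((iS).symm.trans (H.trans iβ)) r α) = ((iS).symm.trans (G'.trans iβ)) r α
        simp only [Path.trans_apply]
        split_ifs
        · exact hg' _
        · exact hG' _ _
        · exact hg' _
      rw [e2] at e1
      exact e1.trans quot_id3

/-- P3 -/
theorem two_cell (halg : AlgStatement) : TwoCellStatement := by
  intro A X X' _ _ _ i i' x₀ γ γ' H H' t w m k hc hc' hm ht hk hγ hγ'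
  obtain ⟨a, b, ha1, ha0, hb1, hb0, hφ, hψ⟩ := halg (Pi1 A x₀) (Pi1 (HP i) (hdiag i x₀))
    (Pi1 (HP i') (hdiag i' x₀)) (cat i x₀) (cat i' x₀) t w m k (fcls H) (fcls H') hm ht hk
    (d1_fcls H) (by rw [d0_fcls, hγ]) (d1_fcls H') (by rw [d0_fcls, hγ'])
  obtain ⟨Ga, hGa⟩ := exists_fill γ' i a ha1 (by rw [ha0, hγ'])
  obtain ⟨Gb, hGb⟩ := exists_fill γ i' b hb1 (by rw [hb0, hγ])
  obtain ⟨φ, hφi, hφH⟩ := hc'.ext i Ga
  obtain ⟨ψ, hψi, hψH⟩ := hc.ext i' Gb
  have eφ : pushF φ hφi H' = Ga := by
    ext r α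
    exact hφH r α
  have eψ : pushF ψ hψi H = Gb := by
    ext r α
    exact hψH r α
  have h1 : catMap x₀ φ hφi b = fcls H := by
    apply hφ _ (catMap_isMor x₀ φ hφi)
    rw [catMap_fcls, eφ, hGa]
  have h2 : catMap x₀ ψ hψi a = fcls H' := by
    apply hψ _ (catMap_isMor x₀ ψ hψi)
    rw [catMap_fcls, eψ, hGb]
  have g1 : ∀ a, (φ.comp ψ) (i a) = i a := fun a => by
    show φ (ψ (i a)) = i a
    rw [hψi, hφi]
  have g2 : ∀ a, (ψ.comp φ) (i' a) = i' a := fun a => by
    show ψ (φ (i' a)) = i' a
    rw [hφi, hψi]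
  have f1 : fcls (pushF (φ.comp ψ) g1 H) = fcls H := by
    rw [← h1, ← hGb, catMap_fcls, ← eψ]
    congr 1
  have f2 : fcls (pushF (ψ.comp φ) g2 H') = fcls H' := by
    rw [← h2, ← hGa, catMap_fcls, ← eφ]
    congr 1
  obtain ⟨u, hu1, hu2⟩ := exists_inverse hc (φ.comp ψ) g1 f1
  obtain ⟨v, hv1, hv2⟩ := exists_inverse hc' (ψ.comp φ) g2 f2
  -- `φ ψ u ~ 1`, `v ψ φ ~ 1`
  have hright : (φ.comp (ψ.comp u)).Homotopic (ContinuousMap.id X) := hu1
  have hleft : ((v.comp ψ).comp φ).Homotopic (ContinuousMap.id X') := hv2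
  have hinv : ((ψ.comp u).comp φ).Homotopic (ContinuousMap.id X') := by
    have s1 : ((ContinuousMap.id X').comp ((ψ.comp u).comp φ)).Homotopic
        (((v.comp ψ).comp φ).comp ((ψ.comp u).comp φ)) :=
      hleft.symm.comp (ContinuousMap.Homotopic.refl _)
    have s2 : (((v.comp ψ).comp (φ.comp (ψ.comp u))).comp φ).Homotopic
        (((v.comp ψ).comp (ContinuousMap.id X)).comp φ) :=
      ((ContinuousMap.Homotopic.refl (v.comp ψ)).comp hright).comp
        (ContinuousMap.Homotopic.refl φ)
    exact (s1.trans s2).trans hleft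
  exact ⟨{ toFun := ψ.comp u
           invFun := φ
           left_inv := hright
           right_inv := hinv }⟩

end Pool.Agent.Lib.MP_50ef00_gt.H72
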