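import Mathlib
import Pool.Agent.Lib.MP_50ef00_gt.H1.DiscCollapse
import Pool.Agent.Lib.MP_50ef00_gt.H3.Loop
import Pool.Agent.Lib.MP_50ef00_gt.H63.TopCocycle
import Pool.Agent.Lib.MP_50ef00_gt.H65.WordPath
import Pool.Agent.Lib.MP_50ef00_gt.H72.Alg
import Pool.Agent.Lib.MP_50ef00_gt.H72.TwoCell
import Pool.Agent.Lib.MP_50ef00_gt.H75.Union
import Pool.Agent.Lib.MP_50ef00_gt.H76.Collapse
import Pool.Agent.Lib.MP_50ef00_gt.H88.Cell

/-!
# MP_50ef00_gt: the positive side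
The realizations of `Kk k`, `2 ^ k = 1 mod 7775`, are homotopy equivalent.
-/

namespace Pool.Agent.Lib.MP_50ef00_gt.H72

open Pool.Agent.Lib.MP_50ef00_gt

theorem tau_eq (n N : ℕ) : tau n N = ({0, N, N + (n - 1)} : Finset ℕ) := by
  unfold tau
  ext x
  simp only [Finset.mem_insert, Finset.mem_singleton]
  tauto

theorem he_symm {K L : Finset (Finset ℕ)} (h : HE K L) : HE L K := by
  obtain ⟨e⟩ := h
  exact ⟨e.symm⟩

theorem cls_congr {X : Type} [TopologicalSpace X] {x : X} {γ γ' : Path x x}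
    (h : γ.Homotopic γ') : cls γ = cls γ' := cls_eq.mpr h

/-- the positive side -/
theorem pos : PosStatement := by
  intro k hk
  obtain ⟨-, hZ, -, -, hne, hf1, hf2⟩ := H75.union H1.nc0 H65.good_path k
  have hn1 := H75.nk_ge k
  have hn2 := H75.nk_ge 0
  -- the two missing triangles
  set b1 : ℕ := 1000 with hb1
  set c1 : ℕ := 1000 + (nk k - 1) with hc1
  set b2 : ℕ := N2 k with hb2
  set c2 : ℕ := N2 k + (nk 0 - 1) with hc2
  have e1 : tau (nk k) 1000 = ({0, b1, c1} : Finset ℕ) := tau_eq _ _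
  have e2 : tau (nk 0) (N2 k) = ({0, b2, c2} : Finset ℕ) := tau_eq _ _
  have hb10 : b1 ≠ 0 := by omega
  have hc10 : c1 ≠ 0 := by omega
  have hbc1 : b1 ≠ c1 := by omega
  have hb20 : b2 ≠ 0 := by rw [hb2]; unfold N2; omega
  have hc20 : c2 ≠ 0 := by omega
  have hbc2 : b2 ≠ c2 := by omega
  have face : ∀ {τ : Finset ℕ}, τ.card = 3 →
      (∀ s, s ⊆ τ → s.Nonempty → s ≠ τ → s ∈ Zk k) → ∀ s, s ⊆ τ → s.Nonempty → s.card ≤ 2 →
      s ∈ Zk k := by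
    intro τ hτ h s hs hsn hc
    apply h s hs hsn
    intro e
    rw [e] at hc
    omega
  have card3 : ∀ {b c : ℕ}, b ≠ 0 → c ≠ 0 → b ≠ c → ({0, b, c} : Finset ℕ).card = 3 := by
    intro b c hb hc hbc
    rw [Finset.card_eq_three]
    exact ⟨0, b, c, hb.symm, hc.symm, hbc, rfl⟩
  have f1 := face (card3 hb10 hc10 hbc1) (by rw [← e1]; exact hf1)
  have f2 := face (card3 hb20 hc20 hbc2) (by rw [← e2]; exact hf2)
  have two : ∀ a b : ℕ, ({a, b} : Finset ℕ).card ≤ 2 := fun a b => Finset.card_le_two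
  have sub : ∀ (a b x y z : ℕ), (a = x ∨ a = y ∨ a = z) → (b = x ∨ b = y ∨ b = z) →
      ({a, b} : Finset ℕ) ⊆ {x, y, z} := by
    intro a b x y z ha hb t ht
    simp only [Finset.mem_insert, Finset.mem_singleton] at ht ⊢
    rcases ht with rfl | rfl
    · exact ha
    · exact hb
  have ne2 : ∀ a b : ℕ, ({a, b} : Finset ℕ).Nonempty := fun a b => ⟨a, by simp⟩
  have h0 : ({0} : Finset ℕ) ∈ Zk k := f1 _ (by simp) (by simp) (by simp)
  have m1b : ({b1} : Finset ℕ) ∈ Zk k := f1 _ (by simp) (by simp) (by simp)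
  have m1c : ({c1} : Finset ℕ) ∈ Zk k := f1 _ (by simp) (by simp) (by simp)
  have m10b : ({0, b1} : Finset ℕ) ∈ Zk k := f1 _ (sub _ _ _ _ _ (by tauto) (by tauto)) (ne2 _ _) (two _ _)
  have m1bc : ({b1, c1} : Finset ℕ) ∈ Zk k := f1 _ (sub _ _ _ _ _ (by tauto) (by tauto)) (ne2 _ _) (two _ _)
  have m1c0 : ({c1, 0} : Finset ℕ) ∈ Zk k := f1 _ (sub _ _ _ _ _ (by tauto) (by tauto)) (ne2 _ _) (two _ _)
  have m2b : ({b2} : Finset ℕ) ∈ Zk k := f2 _ (by simp) (by simp) (by simp)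
  have m2c : ({c2} : Finset ℕ) ∈ Zk k := f2 _ (by simp) (by simp) (by simp)
  have m20b : ({0, b2} : Finset ℕ) ∈ Zk k := f2 _ (sub _ _ _ _ _ (by tauto) (by tauto)) (ne2 _ _) (two _ _)
  have m2bc : ({b2, c2} : Finset ℕ) ∈ Zk k := f2 _ (sub _ _ _ _ _ (by tauto) (by tauto)) (ne2 _ _) (two _ _)
  have m2c0 : ({c2, 0} : Finset ℕ) ∈ Zk k := f2 _ (sub _ _ _ _ _ (by tauto) (by tauto)) (ne2 _ _) (two _ _)
  have t1 : ({0, b1, c1} : Finset ℕ) ∉ Zk k := by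
    rw [← e1]
    intro h
    rw [Zk, Finset.mem_erase, Finset.mem_erase] at h
    exact h.2.1 rfl
  have t2 : ({0, b2, c2} : Finset ℕ) ∉ Zk k := by
    rw [← e2]
    intro h
    rw [Zk, Finset.mem_erase] at h
    exact h.1 rfl
  -- the cells
  obtain ⟨γ1, Ga, g1, hcell1⟩ := H88.cell (Zk k) b1 c1 h0 m1b m1c m10b m1bc m1c0 hZ hb10 hc10 hbc1 t1
  obtain ⟨γ2, Gb, g2, hcell2⟩ := H88.cell (Zk k) b2 c2 h0 m2b m2c m20b m2bc m2c0 hZ hb20 hc20 hbc2 t2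
  -- the cocycle
  obtain ⟨A, hA, hAl⟩ := H63.topCocycle (Zk k) h0 hZ
  obtain ⟨ht, hv1, hv2⟩ := H3.loop k A hA
  have c1' : cls γ1 = H96.vk (lhol A 0) (lhol A 3) k := by
    rw [cls_congr g1, ← hAl b1 c1 m1b m1c m10b m1bc m1c0, ← hv1]
  have c2' : cls γ2 = H96.vk (lhol A 0) (lhol A 3) 0 := by
    rw [cls_congr g2, ← hAl b2 c2 m2b m2c m20b m2bc m2c0, ← hv2]
  have hX : HE (insert ({0, b2, c2} : Finset ℕ) (Zk k)) (insert ({0, b1, c1} : Finset ℕ) (Zk k)) :=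
    two_cell alg (Rz (Zk k)) (Rz (insert ({0, b2, c2} : Finset ℕ) (Zk k)))
      (Rz (insert ({0, b1, c1} : Finset ℕ) (Zk k))) _ _ (vtx (Zk k) 0 h0) γ2 γ1 Gb Ga
      (lhol A 0) (lhol A 3) 7775 k hcell2 hcell1 ⟨3887, by norm_num⟩ ht hk c2' c1'
  have hL := H75.unionLeft H1.nc0 H65.good_path H76.collapseHE k
  have hR := H75.unionRight H1.nc0 H65.good_path H76.collapseHE H76.relabelHE k
  rw [e1] at hL
  rw [e2] at hR
  exact H75.he_trans (he_symm hL) (H75.he_trans (he_symm hX) hR)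

end Pool.Agent.Lib.MP_50ef00_gt.H72
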