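import Mathlib
import Pool.Agent.Lib.MP_50ef00_gt.H65.NegFinal
import Pool.Agent.Lib.MP_50ef00_gt.H72.Conn
import Pool.Agent.Lib.MP_50ef00_gt.H72.PosFinal

/-!
# MP_50ef00_gt: the final theorem
-/

namespace Pool.Agent.Lib.MP_50ef00_gt.H72

open Pool.Agent.Lib.MP_50ef00_gt

theorem two_pow : (2 : ZMod 7775) ^ 620 = 1 := by
  have h1 : ((2 ^ 124 : ℕ) : ZMod 7775) = ((216 : ℕ) : ZMod 7775) := by
    rw [ZMod.natCast_eq_natCast_iff']
    norm_num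
  have h2 : ((216 ^ 5 : ℕ) : ZMod 7775) = ((1 : ℕ) : ZMod 7775) := by
    rw [ZMod.natCast_eq_natCast_iff']
    norm_num
  have h3 : (2 : ZMod 7775) ^ 124 = ((216 : ℕ) : ZMod 7775) := by
    rw [← h1, Nat.cast_pow, Nat.cast_ofNat]
  have h4 : ((216 : ℕ) : ZMod 7775) ^ 5 = 1 := by
    rw [← Nat.cast_pow, h2, Nat.cast_one]
  rw [show 620 = 124 * 5 from rfl, pow_mul, h3, h4]

theorem he_zero (k n : ℕ) (hk : k = 620 * n) : HE (Kk k) (Kk 0) := by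
  apply pos k
  rw [hk, pow_mul, two_pow, one_pow]

/-- the family -/
theorem final : ∃ K : ℕ → Finset (Finset ℕ),
    (∀ n, IsComplex (K n) ∧ (∀ s ∈ K n, s.card ≤ 3) ∧ PathConnectedSpace (Rz (K n))) ∧
    (∀ m n, HE (K m) (K n)) ∧ ∀ m n, m ≠ n → ¬ SimpleEquiv (K m) (K n) := by
  obtain ⟨f, hf, h1⟩ : ∃ f : ℕ → ℕ, (∀ n, f n = 620 * (n + 1)) ∧ ∀ n, 2 ≤ f n :=
    ⟨fun n => 620 * (n + 1), fun _ => rfl, fun n => by show 2 ≤ 620 * (n + 1); omega⟩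
  refine ⟨fun n => Kk (f n), fun n => ⟨H75.isComplex_Kk _, ?_, pathConnected_Kk _⟩, ?_, ?_⟩
  · intro s hs
    exact H75.dim2_Both _ s (Finset.mem_union_left _ hs)
  · intro m n
    exact H75.he_trans (he_zero (f m) (m + 1) (hf m)) (he_symm (he_zero (f n) (n + 1) (hf n)))
  · intro m n hmn h
    have h2 := H65.neg (f m) (f n) (h1 m) (h1 n) h
    rw [hf, hf] at h2
    omega

end Pool.Agent.Lib.MP_50ef00_gt.H72
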